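import Mathlib

/-!
Subharmonic functions of class `C^2` on the upper half plane which are invariant under the modular
group and grow at most like `o(v)` at the cusp are constant.
-/

open Complex Set Filter Topology

namespace Pool.Agent.Helper89.OF

/-- the upper half plane -/
def HH : Set ℂ := {z | 0 < z.im}

/-- second derivative at `z` in the direction `e` -/
noncomputable def dd (U : ℂ → ℝ) (e z : ℂ) : ℝ := deriv (deriv fun t : ℝ => U (z + t * e)) 0

theorem isOpen_HH : IsOpen HH := isOpen_lt continuous_const continuous_im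

theorem hasDerivAt_line (z e : ℂ) (t : ℝ) : HasDerivAt (fun t : ℝ => z + (t : ℂ) * e) e t := by
  have h := ((hasDerivAt_id (t : ℂ)).comp_ofReal).mul_const e
  simpa using h.const_add z

theorem contDiff_line (z e : ℂ) : ContDiff ℝ 2 fun t : ℝ => z + (t : ℂ) * e :=
  contDiff_const.add (ofRealCLM.contDiff.mul contDiff_const)

theorem isLocalMax_line {W : ℂ → ℝ} {z : ℂ} (e : ℂ) (hm : IsLocalMax W z) :
    IsLocalMax (fun t : ℝ => W (z + t * e)) 0 := by
  have hc : Tendsto (fun t : ℝ => z + (t : ℂ) * e) (𝓝 0) (𝓝 z) := by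
    have h := (hasDerivAt_line z e 0).continuousAt.tendsto
    simpa using h
  have h := hc.eventually hm
  refine h.mono fun t ht => ?_
  simpa using ht

theorem dd_nonpos {W : ℂ → ℝ} {z : ℂ} (e : ℂ) (hc : ContinuousAt W z) (hm : IsLocalMax W z) :
    dd W e z ≤ 0 := by
  by_contra hpos
  push Not at hpos
  have hl := isLocalMax_line e hm
  have hct : ContinuousAt (fun t : ℝ => W (z + t * e)) 0 := by
    have h1 : ContinuousAt W (z + ((0 : ℝ) : ℂ) * e) := by simpa using hc
    exact ContinuousAt.comp (f := fun t : ℝ => z + (t : ℂ) * e) h1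
      (hasDerivAt_line z e 0).continuousAt
  have h2 := isLocalMin_of_deriv_deriv_pos hpos hl.deriv_eq_zero hct
  have h3 : (fun t : ℝ => W (z + t * e)) =ᶠ[𝓝 0] fun _ => W (z + ((0 : ℝ) : ℂ) * e) := by
    filter_upwards [hl, h2] with t ht1 ht2
    exact le_antisymm ht1 ht2
  have h4 : deriv (fun t : ℝ => W (z + t * e)) =ᶠ[𝓝 0] fun _ => (0 : ℝ) := by
    have h5 := h3.deriv
    simpa using h5
  have h6 := h4.deriv_eq
  rw [dd, h6] at hpos
  simp at hpos

theorem dd_add {U φ : ℂ → ℝ} {z : ℂ} (e : ℂ) (hU : ContDiffAt ℝ 2 U z) (hφ : ContDiffAt ℝ 2 φ z) :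
    dd (fun w => U w + φ w) e z = dd U e z + dd φ e z := by
  have h1 : ContDiffAt ℝ 2 (fun t : ℝ => U (z + t * e)) 0 := by
    have h : ContDiffAt ℝ 2 U (z + ((0 : ℝ) : ℂ) * e) := by simpa using hU
    exact h.comp (0 : ℝ) (contDiff_line z e).contDiffAt
  have h2 : ContDiffAt ℝ 2 (fun t : ℝ => φ (z + t * e)) 0 := by
    have h : ContDiffAt ℝ 2 φ (z + ((0 : ℝ) : ℂ) * e) := by simpa using hφ
    exact h.comp (0 : ℝ) (contDiff_line z e).contDiffAt
  have h3 := iteratedDeriv_add (n := 2) h1 h2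
  simp only [iteratedDeriv_succ, iteratedDeriv_zero] at h3
  exact h3

/-- Laplacian -/
noncomputable def Lap (U : ℂ → ℝ) (z : ℂ) : ℝ := dd U 1 z + dd U I z

theorem lap_nonpos {W : ℂ → ℝ} {z : ℂ} (hc : ContinuousAt W z) (hm : IsLocalMax W z) :
    Lap W z ≤ 0 := add_nonpos (dd_nonpos 1 hc hm) (dd_nonpos I hc hm)

theorem lap_add {U φ : ℂ → ℝ} {z : ℂ} (hU : ContDiffAt ℝ 2 U z) (hφ : ContDiffAt ℝ 2 φ z) :
    Lap (fun w => U w + φ w) z = Lap U z + Lap φ z := by
  rw [Lap, Lap, Lap, dd_add 1 hU hφ, dd_add I hU hφ]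
  ring

/-- the derivative of a function which vanishes -/
theorem deriv_deriv_of {f f' : ℝ → ℝ} {c : ℝ} (h1 : ∀ᶠ t in 𝓝 (0 : ℝ), HasDerivAt f (f' t) t)
    (h2 : HasDerivAt f' c 0) : deriv (deriv f) 0 = c := by
  have h3 : deriv f =ᶠ[𝓝 0] f' := h1.mono fun t ht => ht.deriv
  rw [h3.deriv_eq, h2.deriv]

/-- barrier at the cusp -/
noncomputable def cb (ε δ : ℝ) (z : ℂ) : ℝ := -ε * z.im + δ * z.im⁻¹

theorem cb_contDiffAt (ε δ : ℝ) {z : ℂ} (hz : z ∈ HH) : ContDiffAt ℝ 2 (cb ε δ) z := by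
  have h1 : ContDiffAt ℝ 2 (fun z : ℂ => z.im) z := Complex.imCLM.contDiff.contDiffAt
  have h2 : ContDiffAt ℝ 2 (fun z : ℂ => z.im⁻¹) z := h1.inv (ne_of_gt hz)
  exact (contDiffAt_const.mul h1).add (contDiffAt_const.mul h2)

theorem cb_lap (ε δ : ℝ) {z : ℂ} (hz : z ∈ HH) : Lap (cb ε δ) z = 2 * δ * (z.im⁻¹) ^ 3 := by
  have hz' : 0 < z.im := hz
  have h1 : dd (cb ε δ) 1 z = 0 := by
    refine deriv_deriv_of (f' := fun _ => 0) (Eventually.of_forall fun t => ?_)
      (hasDerivAt_const _ _)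
    have h : (fun t : ℝ => cb ε δ (z + t * 1)) = fun _ => cb ε δ z := by
      funext t
      simp [cb]
    rw [h]
    exact hasDerivAt_const _ _
  have h2 : dd (cb ε δ) I z = 2 * δ * (z.im⁻¹) ^ 3 := by
    have hf : (fun t : ℝ => cb ε δ (z + t * I)) =
        fun t : ℝ => -ε * (z.im + t) + δ * (z.im + t)⁻¹ := by
      funext t
      simp [cb]
    have hlin : ∀ t : ℝ, HasDerivAt (fun t : ℝ => z.im + t) 1 t := fun t =>
      (hasDerivAt_id t).const_add z.im
    have hpos : ∀ᶠ t in 𝓝 (0 : ℝ), 0 < z.im + t := by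
      have : Tendsto (fun t : ℝ => z.im + t) (𝓝 0) (𝓝 (z.im + 0)) :=
        (hlin 0).continuousAt.tendsto
      rw [add_zero] at this
      exact this.eventually (lt_mem_nhds hz')
    rw [dd, hf]
    refine deriv_deriv_of (f' := fun t => -ε - δ * ((z.im + t) ^ 2)⁻¹) ?_ ?_
    · filter_upwards [hpos] with t ht
      have h3 := ((hlin t).inv (ne_of_gt ht)).const_mul δ
      have h4 := ((hlin t).const_mul (-ε)).add h3
      refine h4.congr_deriv ?_
      field_simp
      ring
    · have h3 := ((hlin 0).fun_pow 2).fun_inv (by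
        have : z.im + 0 ≠ 0 := by rw [add_zero]; exact ne_of_gt hz'
        exact pow_ne_zero 2 this)
      have h4 := (h3.const_mul δ).const_sub (-ε)
      refine h4.congr_deriv ?_
      simp only [add_zero]
      field_simp
      ring
  rw [Lap, h1, h2, zero_add]

/-- radial barrier -/
noncomputable def rb (ε : ℝ) (b z : ℂ) : ℝ := ε * (normSq (z - b))⁻¹

theorem rb_contDiffAt (ε : ℝ) {b z : ℂ} (hz : z ≠ b) : ContDiffAt ℝ 2 (rb ε b) z := by
  have h1 : ContDiffAt ℝ 2 (fun z : ℂ => normSq (z - b)) z := by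
    have : (fun z : ℂ => normSq (z - b)) = fun z : ℂ =>
        (imCLM z - b.im) * (imCLM z - b.im) + (reCLM z - b.re) * (reCLM z - b.re) := by
      funext z
      simp [normSq_apply]
      ring
    rw [this]
    have hr : ContDiffAt ℝ 2 (fun z : ℂ => reCLM z) z := reCLM.contDiff.contDiffAt
    have hi : ContDiffAt ℝ 2 (fun z : ℂ => imCLM z) z := imCLM.contDiff.contDiffAt
    exact ((hi.sub contDiffAt_const).mul (hi.sub contDiffAt_const)).add
      ((hr.sub contDiffAt_const).mul (hr.sub contDiffAt_const))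
  have h2 : normSq (z - b) ≠ 0 := by
    rw [Ne, normSq_eq_zero, sub_eq_zero]
    exact hz
  exact contDiffAt_const.mul (h1.inv h2)

theorem inv_quad_dd (ε x y : ℝ) (h : x * x + y * y ≠ 0) :
    deriv (deriv fun t : ℝ => ε * ((x + t) * (x + t) + y * y)⁻¹) 0 =
      ε * (8 * x ^ 2 / (x * x + y * y) ^ 3 - 2 / (x * x + y * y) ^ 2) := by
  have hq : ∀ t : ℝ, HasDerivAt (fun t : ℝ => (x + t) * (x + t) + y * y) (2 * (x + t)) t := by
    intro t
    have h1 : HasDerivAt (fun t : ℝ => x + t) 1 t := (hasDerivAt_id t).const_add x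
    have h2 := (h1.mul h1).add_const (y * y)
    refine h2.congr_deriv ?_
    ring
  have hne : ∀ᶠ t in 𝓝 (0 : ℝ), (x + t) * (x + t) + y * y ≠ 0 := by
    have h1 : Tendsto (fun t : ℝ => (x + t) * (x + t) + y * y) (𝓝 0)
        (𝓝 ((x + 0) * (x + 0) + y * y)) := (hq 0).continuousAt.tendsto
    rw [add_zero] at h1
    exact h1.eventually (isOpen_ne.mem_nhds h)
  refine deriv_deriv_of
    (f' := fun t => ε * (-(2 * (x + t)) / ((x + t) * (x + t) + y * y) ^ 2)) ?_ ?_
  · filter_upwards [hne] with t ht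
    exact ((hq t).inv ht).const_mul ε
  · have h1 : HasDerivAt (fun t : ℝ => -(2 * (x + t))) (-2) 0 := by
      have := ((hasDerivAt_id (0 : ℝ)).const_add x).const_mul 2
      have h2 := this.neg
      refine h2.congr_deriv ?_
      norm_num
    have h2 : ((x + 0) * (x + 0) + y * y) ^ 2 ≠ 0 := by
      rw [add_zero]
      exact pow_ne_zero 2 h
    have h3 := (h1.fun_div ((hq 0).fun_pow 2) h2).const_mul ε
    refine h3.congr_deriv ?_
    simp only [add_zero]
    have h4 : x ^ 2 + y ^ 2 ≠ 0 := by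
      intro h5
      apply h
      rw [← h5]
      ring
    field_simp
    ring

theorem rb_lap (ε : ℝ) {b z : ℂ} (hz : z ≠ b) :
    Lap (rb ε b) z = ε * (4 / (normSq (z - b)) ^ 2) := by
  set x := (z - b).re with hx
  set y := (z - b).im with hy
  have hn : normSq (z - b) = x * x + y * y := by rw [normSq_apply]
  have h2 : x * x + y * y ≠ 0 := by
    rw [← hn, Ne, normSq_eq_zero, sub_eq_zero]
    exact hz
  have e1 : (fun t : ℝ => rb ε b (z + t * 1)) =
      fun t : ℝ => ε * ((x + t) * (x + t) + y * y)⁻¹ := by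
    funext t
    rw [rb, normSq_apply]
    simp only [mul_one, sub_re, add_re, ofReal_re, sub_im, add_im, ofReal_im, add_zero, hx, hy]
    congr 2
    ring
  have e2 : (fun t : ℝ => rb ε b (z + t * I)) =
      fun t : ℝ => ε * ((y + t) * (y + t) + x * x)⁻¹ := by
    funext t
    rw [rb, normSq_apply]
    have a1 : (z + t * I - b).re = x := by simp [hx]
    have a2 : (z + t * I - b).im = y + t := by
      simp [hy]
      ring
    rw [a1, a2, add_comm (x * x)]
  rw [Lap, dd, dd, e1, e2, inv_quad_dd ε x y h2, inv_quad_dd ε y x (by rwa [add_comm]), hn,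
    add_comm (y * y)]
  have h4 : x ^ 2 + y ^ 2 ≠ 0 := by
    intro h5
    apply h2
    rw [← h5]
    ring
  field_simp
  ring

/-- Hopf's argument: at a boundary point of a disc where the maximum is attained. -/
theorem hopf {U : ℂ → ℝ} (hU : ContDiffOn ℝ 2 U HH) (hL : ∀ z ∈ HH, 0 ≤ Lap U z) {M : ℝ}
    (hM : ∀ z ∈ HH, U z ≤ M) {b x₀ : ℂ} {R : ℝ} (hR : 0 < R)
    (hB : Metric.closedBall b R ⊆ HH) (hx : dist x₀ b = R) (hx₀ : U x₀ = M)
    (hlt : ∀ z ∈ Metric.ball b R, U z < M) : False := by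
  have hd : ∀ z ∈ HH, ContDiffAt ℝ 2 U z := fun z hz => hU.contDiffAt (isOpen_HH.mem_nhds hz)
  have hcont : ContinuousOn U (Metric.closedBall b R) := hU.continuousOn.mono hB
  have nsq : ∀ z : ℂ, normSq (z - b) = dist z b ^ 2 := fun z => by
    rw [normSq_eq_norm_sq, dist_eq_norm]
  -- the value on the inner circle
  have hS : IsCompact (Metric.sphere b (R / 2)) := isCompact_sphere _ _
  have hSne : (Metric.sphere b (R / 2)).Nonempty := by
    refine ⟨b + (R / 2 : ℝ), ?_⟩
    rw [Metric.mem_sphere, dist_eq_norm, add_sub_cancel_left, Complex.norm_real,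
      Real.norm_of_nonneg (by positivity)]
  have hSsub : Metric.sphere b (R / 2) ⊆ Metric.ball b R := by
    intro z hz
    rw [Metric.mem_sphere] at hz
    rw [Metric.mem_ball, hz]
    linarith
  obtain ⟨s₀, hs₀, hs₀max⟩ := hS.exists_isMaxOn hSne
    (hcont.mono (hSsub.trans Metric.ball_subset_closedBall))
  set η := M - U s₀ with hη
  have hηpos : 0 < η := sub_pos.2 (hlt _ (hSsub hs₀))
  set ε := η * R ^ 2 / 3 with hε
  have hεpos : 0 < ε := by positivity
  -- the annulus
  set K : Set ℂ := Metric.closedBall b R \ Metric.ball b (R / 2) with hK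
  have hKc : IsCompact K := (isCompact_closedBall b R).diff Metric.isOpen_ball
  set W : ℂ → ℝ := fun z => U z + rb ε b z with hW
  have hne : ∀ z ∈ K, z ≠ b := by
    rintro z ⟨_, hz⟩ rfl
    apply hz
    rw [Metric.mem_ball, dist_self]
    positivity
  have hWd : ∀ z ∈ K, ContDiffAt ℝ 2 W z := fun z hz =>
    (hd z (hB hz.1)).add (rb_contDiffAt ε (hne z hz))
  have hWc : ContinuousOn W K := fun z hz => (hWd z hz).continuousAt.continuousWithinAt
  have hKne : K.Nonempty := by
    refine ⟨x₀, ?_, ?_⟩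
    · rw [Metric.mem_closedBall, hx]
    · rw [Metric.mem_ball, hx]
      linarith
  obtain ⟨m, hm, hmax⟩ := hKc.exists_isMaxOn hKne hWc
  have hWm : W m ≤ M + ε / R ^ 2 := by
    by_cases h1 : dist m b = R
    · rw [hW]
      simp only [rb]
      rw [nsq, h1]
      have := hM m (hB hm.1)
      rw [← div_eq_mul_inv]
      linarith
    · by_cases h2 : dist m b = R / 2
      · have h3 : U m ≤ M - η := by
          have := hs₀max (Metric.mem_sphere.2 h2)
          rw [hη]
          simpa using this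
        rw [hW]
        simp only [rb]
        rw [nsq, h2]
        have h4 : ε * ((R / 2) ^ 2)⁻¹ = 4 * (ε / R ^ 2) := by
          field_simp
          ring
        have h5 : 3 * (ε / R ^ 2) = η := by
          rw [hε]
          field_simp
        rw [h4]
        linarith
      · exfalso
        have hin : m ∈ interior K := by
          rw [mem_interior]
          refine ⟨Metric.ball b R \ Metric.closedBall b (R / 2), ?_, ?_, ?_⟩
          · rintro z ⟨hz1, hz2⟩
            exact ⟨Metric.ball_subset_closedBall hz1,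
              fun hz3 => hz2 (Metric.ball_subset_closedBall hz3)⟩
          · exact Metric.isOpen_ball.sdiff Metric.isClosed_closedBall
          · refine ⟨?_, ?_⟩
            · have := hm.1
              rw [Metric.mem_closedBall] at this
              exact lt_of_le_of_ne this h1
            · intro h3
              rw [Metric.mem_closedBall] at h3
              have := hm.2
              rw [Metric.mem_ball, not_lt] at this
              exact h2 (le_antisymm h3 this)
        have hloc : IsLocalMax W m :=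
          hmax.isLocalMax (mem_interior_iff_mem_nhds.1 hin)
        have h3 := lap_nonpos (hWd m hm).continuousAt hloc
        rw [hW, lap_add (hd m (hB hm.1)) (rb_contDiffAt ε (hne m hm)), rb_lap ε (hne m hm)] at h3
        have h4 := hL m (hB hm.1)
        have h5 : 0 < normSq (m - b) := normSq_pos.2 (sub_ne_zero.2 (hne m hm))
        have h6 : 0 < ε * (4 / normSq (m - b) ^ 2) := by positivity
        linarith
  -- the radial function
  have hxH : x₀ ∈ HH := hB (by rw [Metric.mem_closedBall, hx])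
  have hmaxx : IsLocalMax U x₀ := by
    filter_upwards [isOpen_HH.mem_nhds hxH] with z hz
    rw [hx₀]
    exact hM z hz
  have hl := isLocalMax_line (-(x₀ - b)) hmaxx
  have hdiff : DifferentiableAt ℝ (fun t : ℝ => U (x₀ + t * -(x₀ - b))) 0 := by
    have h1 : DifferentiableAt ℝ U (x₀ + ((0 : ℝ) : ℂ) * -(x₀ - b)) := by
      simpa using (hd x₀ hxH).differentiableAt (by norm_num)
    exact DifferentiableAt.comp (f := fun t : ℝ => x₀ + (t : ℂ) * -(x₀ - b)) (0 : ℝ) h1
      ((contDiff_line x₀ (-(x₀ - b))).differentiable (by norm_num) 0)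
  have hder : HasDerivAt (fun t : ℝ => U (x₀ + t * -(x₀ - b))) 0 0 := by
    have h1 := hdiff.hasDerivAt
    rwa [hl.deriv_eq_zero] at h1
  have hslope := hder.tendsto_slope_zero_right
  have hev : ∀ᶠ t in 𝓝[>] (0 : ℝ),
      t⁻¹ • (U (x₀ + ((0 + t : ℝ) : ℂ) * -(x₀ - b)) - U (x₀ + ((0 : ℝ) : ℂ) * -(x₀ - b))) ≤
        -(2 * ε / R ^ 2) := by
    have h1 : ∀ᶠ t in 𝓝[>] (0 : ℝ), t ∈ Ioo (0 : ℝ) (1 / 2) :=
      Ioo_mem_nhdsGT (by norm_num)
    filter_upwards [h1] with t ht
    have hdist : dist (x₀ + ((0 + t : ℝ) : ℂ) * -(x₀ - b)) b = (1 - t) * R := by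
      rw [dist_eq_norm] at hx ⊢
      have : x₀ + ((0 + t : ℝ) : ℂ) * -(x₀ - b) - b = ((1 - t : ℝ) : ℂ) * (x₀ - b) := by
        push_cast
        ring
      rw [this, norm_mul, hx, Complex.norm_real, Real.norm_of_nonneg (by linarith [ht.2])]
    have hmem : x₀ + ((0 + t : ℝ) : ℂ) * -(x₀ - b) ∈ K := by
      refine ⟨?_, ?_⟩
      · rw [Metric.mem_closedBall, hdist]
        nlinarith [ht.1]
      · rw [Metric.mem_ball, hdist, not_lt]
        nlinarith [ht.2]
    have h2 : W (x₀ + ((0 + t : ℝ) : ℂ) * -(x₀ - b)) ≤ M + ε / R ^ 2 := (hmax hmem).trans hWm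
    rw [hW] at h2
    simp only [rb] at h2
    rw [nsq, hdist] at h2
    have h3 : U (x₀ + ((0 : ℝ) : ℂ) * -(x₀ - b)) = M := by simpa using hx₀
    rw [h3, smul_eq_mul]
    have h4 : ε * (((1 - t) * R) ^ 2)⁻¹ - ε / R ^ 2 ≥ 2 * ε / R ^ 2 * t := by
      have h5 : 0 < 1 - t := by linarith [ht.2]
      have h6 : 1 + 2 * t ≤ ((1 - t) ^ 2)⁻¹ := by
        rw [le_inv_comm₀ (by linarith [ht.1]) (by positivity)]
        rw [inv_eq_one_div, le_div_iff₀ (by linarith [ht.1])]
        nlinarith [ht.1, ht.2, mul_pos ht.1 ht.1]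
      have h7 : ε * (((1 - t) * R) ^ 2)⁻¹ = ε / R ^ 2 * ((1 - t) ^ 2)⁻¹ := by
        rw [mul_pow, mul_inv]
        ring
      rw [h7]
      have h8 : 0 < ε / R ^ 2 := by positivity
      have h9 : 2 * ε / R ^ 2 * t = ε / R ^ 2 * (2 * t) := by ring
      rw [h9]
      nlinarith
    have h5 : U (x₀ + ((0 + t : ℝ) : ℂ) * -(x₀ - b)) - M ≤ -(2 * ε / R ^ 2) * t := by linarith
    calc t⁻¹ * (U (x₀ + ((0 + t : ℝ) : ℂ) * -(x₀ - b)) - M)
        ≤ t⁻¹ * (-(2 * ε / R ^ 2) * t) :=
          mul_le_mul_of_nonneg_left h5 (inv_nonneg.2 ht.1.le)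
      _ = -(2 * ε / R ^ 2) := by
          have := ht.1.ne'
          field_simp
  have hfin := le_of_tendsto hslope hev
  have : 0 < 2 * ε / R ^ 2 := by positivity
  linarith

/-- The strong maximum principle. -/
theorem strong_max {U : ℂ → ℝ} (hU : ContDiffOn ℝ 2 U HH) (hL : ∀ z ∈ HH, 0 ≤ Lap U z)
    {τ0 : ℂ} (h0 : τ0 ∈ HH) (hM : ∀ z ∈ HH, U z ≤ U τ0) : ∀ z ∈ HH, U z = U τ0 := by
  set Z : Set ℂ := {z | z ∈ HH ∧ U z = U τ0} with hZ
  have hcont : ContinuousOn U HH := hU.continuousOn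
  have key : ∀ a ∈ Z, a ∈ interior Z := by
    rintro a ⟨haH, haM⟩
    by_contra hni
    obtain ⟨ρ, hρ, hball⟩ := Metric.isOpen_iff.1 isOpen_HH a haH
    set r := ρ / 4 with hr
    have hrpos : 0 < r := by positivity
    obtain ⟨b, hb, hbZ⟩ : ∃ b ∈ Metric.ball a r, b ∉ Z := by
      by_contra h
      push Not at h
      exact hni (mem_interior.2 ⟨Metric.ball a r, fun z hz => h z hz, Metric.isOpen_ball,
        Metric.mem_ball_self hrpos⟩)
    rw [Metric.mem_ball] at hb
    have hsub : Metric.closedBall a (2 * r) ⊆ HH := by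
      intro z hz
      apply hball
      rw [Metric.mem_closedBall] at hz
      rw [Metric.mem_ball]
      linarith
    have hbH : b ∈ HH := hsub (by rw [Metric.mem_closedBall]; linarith)
    set Z' : Set ℂ := Metric.closedBall a (2 * r) ∩ U ⁻¹' {U τ0} with hZ'
    have hZ'c : IsCompact Z' := (isCompact_closedBall a (2 * r)).of_isClosed_subset
      ((hcont.mono hsub).preimage_isClosed_of_isClosed Metric.isClosed_closedBall
        isClosed_singleton) inter_subset_left
    have haZ' : a ∈ Z' := ⟨Metric.mem_closedBall_self (by positivity), haM⟩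
    obtain ⟨x₀, hx₀, hdist⟩ := hZ'c.exists_infDist_eq_dist ⟨a, haZ'⟩ b
    have hbx : b ≠ x₀ := by
      rintro rfl
      exact hbZ ⟨hbH, hx₀.2⟩
    have hR : 0 < dist x₀ b := dist_pos.2 (Ne.symm hbx)
    have hRle : dist x₀ b ≤ dist b a := by
      rw [dist_comm, ← hdist]
      exact Metric.infDist_le_dist_of_mem haZ'
    refine hopf hU hL hM hR ?_ rfl hx₀.2 ?_
    · intro z hz
      apply hsub
      rw [Metric.mem_closedBall] at hz ⊢
      have := dist_triangle z b a
      linarith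
    · intro z hz
      rw [Metric.mem_ball] at hz
      have hzc : z ∈ Metric.closedBall a (2 * r) := by
        rw [Metric.mem_closedBall]
        have := dist_triangle z b a
        linarith
      refine lt_of_le_of_ne (hM z (hsub hzc)) fun h => ?_
      have h2 := Metric.infDist_le_dist_of_mem (x := b) (show z ∈ Z' from ⟨hzc, h⟩)
      rw [hdist, dist_comm b x₀, dist_comm b z] at h2
      linarith
  have hpre : IsPreconnected HH := by
    have : Convex ℝ HH := convex_halfSpace_im_gt 0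
    exact this.isPreconnected
  have hopen : IsOpen {z | z ∈ HH ∧ U z ≠ U τ0} :=
    hcont.isOpen_inter_preimage isOpen_HH isOpen_ne
  have hfin := IsPreconnected.subset_left_of_subset_union isOpen_interior hopen
    (Set.disjoint_left.2 fun z hz hz' => hz'.2 (interior_subset hz).2)
    (fun z hz => by
      by_cases h : U z = U τ0
      · exact Or.inl (key z ⟨hz, h⟩)
      · exact Or.inr ⟨hz, h⟩) ⟨τ0, h0, key τ0 ⟨h0, rfl⟩⟩ hpre
  intro z hz
  exact (interior_subset (hfin hz)).2

/-- comparison with the second Frechet derivative -/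
theorem dd_eq {U : ℂ → ℝ} {z : ℂ} (e : ℂ) (hU : ContDiffAt ℝ 2 U z) :
    dd U e z = fderiv ℝ (fderiv ℝ U) z e e := by
  have h1 : ∀ᶠ w in 𝓝 z, DifferentiableAt ℝ U w :=
    (hU.eventually (by norm_num)).mono fun w hw => hw.differentiableAt (by norm_num)
  have h2 : DifferentiableAt ℝ (fderiv ℝ U) z :=
    (hU.fderiv_right (m := 1) (by norm_num)).differentiableAt (by norm_num)
  have hc : Tendsto (fun t : ℝ => z + (t : ℂ) * e) (𝓝 0) (𝓝 z) := by
    have h := (hasDerivAt_line z e 0).continuousAt.tendsto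
    simpa using h
  refine deriv_deriv_of (f' := fun t => fderiv ℝ U (z + t * e) e) ?_ ?_
  · filter_upwards [hc.eventually h1] with t ht
    exact ht.hasFDerivAt.comp_hasDerivAt t (hasDerivAt_line z e t)
  · have h3 : HasFDerivAt (fderiv ℝ U) (fderiv ℝ (fderiv ℝ U) z) (z + ((0 : ℝ) : ℂ) * e) := by
      simpa using h2.hasFDerivAt
    have h4 := h3.comp_hasDerivAt (0 : ℝ) (hasDerivAt_line z e 0)
    exact (ContinuousLinearMap.apply ℝ ℝ e).hasFDerivAt.comp_hasDerivAt (0 : ℝ) h4

/-- the maximum principle in the half strip -/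
theorem strip_max {U : ℂ → ℝ} (hU : ContDiffOn ℝ 2 U HH) (hL : ∀ z ∈ HH, 0 ≤ Lap U z)
    (hper : ∀ z ∈ HH, U (z + 1) = U z)
    (hgrow : ∀ ε : ℝ, 0 < ε → ∃ V0 : ℝ, ∀ τ : ℂ, V0 ≤ τ.im → |τ.re| ≤ 1 → U τ ≤ ε * τ.im)
    (y0 B : ℝ) (hy0 : 0 < y0) (hB : ∀ τ : ℂ, τ.im = y0 → U τ ≤ B) :
    ∀ τ : ℂ, y0 ≤ τ.im → U τ ≤ B := by
  -- periodicity in both directions
  have hperz : ∀ (n : ℤ) (z : ℂ), z ∈ HH → U (z + n) = U z := by
    have hn : ∀ (n : ℕ) (z : ℂ), z ∈ HH → U (z + n) = U z := by
      intro n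
      induction n with
      | zero => intro z _; simp
      | succ n ih =>
        intro z hz
        have h1 : z + ((n + 1 : ℕ) : ℂ) = (z + n) + 1 := by push_cast; ring
        have h2 : z + (n : ℂ) ∈ HH := by simpa [HH] using hz
        rw [h1, hper _ h2, ih z hz]
    intro n z hz
    obtain ⟨m, rfl | rfl⟩ := n.eq_nat_or_neg
    · simpa using hn m z hz
    · have h2 : z + ((-(m : ℤ) : ℤ) : ℂ) ∈ HH := by simpa [HH] using hz
      have := hn m _ h2
      rw [← this]
      congr 1
      push_cast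
      ring
  have hred : ∀ z : ℂ, ∃ n : ℤ, (z + n).re ∈ Icc (0 : ℝ) 1 := by
    intro z
    refine ⟨-⌊z.re⌋, ?_⟩
    have h1 := Int.floor_le z.re
    have h2 := Int.lt_floor_add_one z.re
    simp only [Int.cast_neg, add_re, neg_re, intCast_re, mem_Icc]
    constructor <;> linarith
  intro τ1 hτ1
  by_contra hgt
  push Not at hgt
  have hτpos : 0 < τ1.im := lt_of_lt_of_le hy0 hτ1
  -- parameters
  obtain ⟨ε, hε, hε1⟩ : ∃ ε : ℝ, 0 < ε ∧ B + ε < U τ1 - ε * τ1.im := by
    refine ⟨(U τ1 - B) / (2 * (1 + τ1.im)), by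
      have : 0 < U τ1 - B := by linarith
      positivity, ?_⟩
    have h1 : (U τ1 - B) / (2 * (1 + τ1.im)) * (1 + τ1.im) = (U τ1 - B) / 2 := by
      field_simp
    nlinarith
  set δ := ε * y0 with hδ
  have hδpos : 0 < δ := by positivity
  obtain ⟨V0, hV0⟩ := hgrow (ε / 2) (by positivity)
  set W : ℂ → ℝ := fun z => U z + cb ε δ z with hW
  have hWper : ∀ (n : ℤ) (z : ℂ), z ∈ HH → W (z + n) = W z := by
    intro n z hz
    rw [hW]
    simp only [cb]
    rw [hperz n z hz]
    simp
  -- large heights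
  set V := max (max V0 (τ1.im + 1)) (2 * |B| / ε + 1) with hV
  have hVlarge : ∀ z : ℂ, V ≤ z.im → W z ≤ B + ε := by
    intro z hz
    have hz0 : V0 ≤ z.im := ((le_max_left _ _).trans (le_max_left _ _)).trans hz
    have hz1 : τ1.im + 1 ≤ z.im := ((le_max_right _ _).trans (le_max_left _ _)).trans hz
    have hz2 : 2 * |B| / ε + 1 ≤ z.im := (le_max_right _ _).trans hz
    have hzH : z ∈ HH := by
      show 0 < z.im
      linarith
    obtain ⟨n, hn⟩ := hred z
    rw [← hWper n z hzH]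
    have him : (z + n).im = z.im := by simp
    have h1 := hV0 (z + n) (by rw [him]; exact hz0) (by
      rw [abs_le]
      exact ⟨by linarith [hn.1], hn.2⟩)
    rw [hW]
    simp only [cb]
    rw [him] at h1 ⊢
    have h2 : δ * (z.im)⁻¹ ≤ ε := by
      rw [← div_eq_mul_inv, div_le_iff₀ (by linarith)]
      rw [hδ]
      have : y0 ≤ z.im := by linarith
      nlinarith
    have h3 : 2 * |B| ≤ ε * z.im := by
      have : 2 * |B| / ε ≤ z.im := by linarith
      rw [div_le_iff₀ hε] at this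
      linarith
    have h4 := neg_abs_le B
    linarith
  -- the compact set
  set K : Set ℂ := {z | z.re ∈ Icc (0 : ℝ) 1 ∧ z.im ∈ Icc y0 V} with hK
  have hKeq : K = Icc (0 : ℝ) 1 ×ℂ Icc y0 V := by
    ext z
    rw [mem_reProdIm]
    rfl
  have hKc : IsCompact K := by
    rw [hKeq]
    exact isCompact_Icc.reProdIm isCompact_Icc
  have hKH : K ⊆ HH := fun z hz => lt_of_lt_of_le hy0 hz.2.1
  have hWd : ∀ z ∈ HH, ContDiffAt ℝ 2 W z := fun z hz =>
    (hU.contDiffAt (isOpen_HH.mem_nhds hz)).add (cb_contDiffAt ε δ hz)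
  obtain ⟨n1, hn1⟩ := hred τ1
  have hτ1V : τ1.im ≤ V := by
    have : τ1.im + 1 ≤ V := (le_max_right _ _).trans (le_max_left _ _)
    linarith
  have hmem1 : τ1 + n1 ∈ K := ⟨hn1, by simpa using ⟨hτ1, hτ1V⟩⟩
  obtain ⟨m, hm, hmax⟩ := hKc.exists_isMaxOn ⟨_, hmem1⟩
    (fun z hz => (hWd z (hKH hz)).continuousAt.continuousWithinAt)
  have hWm : B + ε < W m := by
    have h1 : W (τ1 + n1) ≤ W m := hmax hmem1
    rw [hWper n1 τ1 hτpos] at h1
    refine lt_of_lt_of_le ?_ h1
    rw [hW]
    simp only [cb]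
    have : 0 < δ * τ1.im⁻¹ := by positivity
    linarith
  -- `m` is a global maximum on `y0 ≤ im`
  have hglob : ∀ z : ℂ, y0 ≤ z.im → W z ≤ W m := by
    intro z hz
    by_cases hzV : V ≤ z.im
    · exact (hVlarge z hzV).trans hWm.le
    · have hzH : z ∈ HH := lt_of_lt_of_le hy0 hz
      obtain ⟨n, hn⟩ := hred z
      rw [← hWper n z hzH]
      exact hmax ⟨hn, by simpa using ⟨hz, (not_le.1 hzV).le⟩⟩
  have him : y0 < m.im := by
    refine lt_of_le_of_ne hm.2.1 fun h => ?_
    have h1 := hB m h.symm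
    have h2 : W m ≤ B + ε := by
      rw [hW]
      simp only [cb]
      rw [← h]
      have : δ * y0⁻¹ = ε := by
        rw [hδ]
        field_simp
      rw [this]
      have : 0 < ε * y0 := by positivity
      linarith
    linarith
  have hloc : IsLocalMax W m := by
    have : {z : ℂ | y0 < z.im} ∈ 𝓝 m :=
      (isOpen_lt continuous_const continuous_im).mem_nhds him
    filter_upwards [this] with z hz
    exact hglob z (le_of_lt hz)
  have hmH := hKH hm
  have h1 := lap_nonpos (hWd m hmH).continuousAt hloc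
  rw [hW, lap_add (hU.contDiffAt (isOpen_HH.mem_nhds hmH)) (cb_contDiffAt ε δ hmH),
    cb_lap ε δ hmH] at h1
  have h2 := hL m hmH
  have h3 : 0 < m.im := hmH
  have h4 : 0 < 2 * δ * m.im⁻¹ ^ 3 := by positivity
  linarith

end Pool.Agent.Helper89.OF
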